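import Pool.Agent.Lib.EPL.CritB
import Pool.Agent.Lib.EPX.BlkX
import Pool.Agent.Lib.EPX.LeafS
import Pool.Agent.Lib.EPX.Top0
import Pool.Agent.Lib.EPX.Top1
import Pool.Agent.Lib.EPX.Top2
import Pool.Agent.Lib.EPX.Top3
import Pool.Agent.Lib.EPX.Top4
import Pool.Agent.Lib.EPX.Top5

/-!
# The minima of the Epstein zeta function in dimension three

For every real `s > 3/2` we determine all global and all local minima of `ζ(·, s)` on the lattices of
determinant one in `ℝ³`: the global minima are the images of the face-centred cubic lattice under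
isometries; the local minima are these and, for `s < s0`, the images of the body-centred cubic
lattice under isometries. Here `3 ≤ s0 ≤ 4`, and `s0` is the point where the lattice sum `crit`
changes its sign.
-/

namespace Pool.Agent.Results.MP_34eea4_nt.CubicMinima

open Pool.Agent.Lib.EpZ Pool.Agent.Lib.FCC Pool.Agent.Lib.EPL Pool.Agent.Lib.EPX

/-- The classification of the global and of the local minima in dimension three, `s > 3/2`. -/
theorem result : ∃ s0 : ℝ, 3 ≤ s0 ∧ s0 ≤ 4 ∧ (∀ s : ℝ, 3 / 2 < s → (0 < crit s ↔ s < s0)) ∧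
    ∀ s : ℝ, 3 / 2 < s → ∀ Λ : Set (EuclideanSpace ℝ (Fin 3)),
      (IsGlobalMinimum Λ s ↔ Isometric Λ fcc) ∧
      (IsLocalMinimum Λ s ↔ Isometric Λ fcc ∨ (s < s0 ∧ Isometric Λ bcc)) := by
  obtain ⟨s0, h3, h4, hb⟩ := blocks_of xl_sound cert0 cert1 cert2 cert3 cert4 cert5
  exact ⟨s0, h3, h4, classify_crit hb, fun s hs Λ => classify_all hb hs Λ⟩

end Pool.Agent.Results.MP_34eea4_nt.CubicMinima
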