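import Mathlib
import Pool.Agent.Lib.P34eea4.Core

/-!
# Local minima of the Epstein zeta function are indecomposable lattices

For every dimension `d` and every `s > d/2`, a lattice of determinant `1` in `ℝ^d` which is an
orthogonal sum of two nonzero lattices is never a local minimum of `ζ(·, s)`
(hence never a global minimum).
-/

open MeasureTheory Module Filter Topology Set
open scoped RealInnerProductSpace

namespace Pool.Agent.Results.MP_34eea4_nt.IndecomposableMinima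

open Pool.Agent.Lib.P34eea4

/-- The set `B ℤ^d`, for a real `d × d` matrix `B`. -/
def lat {d : ℕ} (B : Matrix (Fin d) (Fin d) ℝ) : Set (EuclideanSpace ℝ (Fin d)) :=
  {v | ∃ x : Fin d → ℤ, ∀ i, v i = ∑ j, B i j * (x j : ℝ)}

/-- `Λ` is a lattice of determinant `1`. -/
def IsUnitLattice {d : ℕ} (Λ : Set (EuclideanSpace ℝ (Fin d))) : Prop :=
  ∃ B : Matrix (Fin d) (Fin d) ℝ, |B.det| = 1 ∧ Λ = lat B

/-- The Epstein zeta function `ζ(Λ, s) = ∑_{v ∈ Λ, v ≠ 0} |v|^(-2s)`. -/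
noncomputable def zeta {d : ℕ} (Λ : Set (EuclideanSpace ℝ (Fin d))) (s : ℝ) : ℝ :=
  ∑' v : {v : EuclideanSpace ℝ (Fin d) // v ∈ Λ ∧ v ≠ 0},
    ‖(v : EuclideanSpace ℝ (Fin d))‖ ^ (-(2 * s))

/-- `Λ` is a local minimum of `ζ(·, s)` among the lattices of determinant `1`: it has determinant
`1` and some basis matrix `B` such that every lattice of determinant `1` having a basis matrix
entrywise `ε`-close to `B` has at least the same zeta value. -/
def IsLocalMinimum {d : ℕ} (Λ : Set (EuclideanSpace ℝ (Fin d))) (s : ℝ) : Prop :=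
  ∃ B : Matrix (Fin d) (Fin d) ℝ, |B.det| = 1 ∧ Λ = lat B ∧ ∃ ε > 0,
    ∀ B' : Matrix (Fin d) (Fin d) ℝ, |B'.det| = 1 → (∀ i j, |B' i j - B i j| < ε) →
      zeta Λ s ≤ zeta (lat B') s

/-- `Λ` is a global minimum of `ζ(·, s)` among the lattices of determinant `1`. -/
def IsGlobalMinimum {d : ℕ} (Λ : Set (EuclideanSpace ℝ (Fin d))) (s : ℝ) : Prop :=
  IsUnitLattice Λ ∧ ∀ Λ' : Set (EuclideanSpace ℝ (Fin d)), IsUnitLattice Λ' →
    zeta Λ s ≤ zeta Λ' s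

/-- `Λ` is decomposable: it is the orthogonal sum of two nonzero subgroups. -/
def IsDecomposable {d : ℕ} (Λ : Set (EuclideanSpace ℝ (Fin d))) : Prop :=
  ∃ Λ₁ Λ₂ : AddSubgroup (EuclideanSpace ℝ (Fin d)), Λ₁ ≠ ⊥ ∧ Λ₂ ≠ ⊥ ∧
    (∀ a ∈ Λ₁, ∀ b ∈ Λ₂, ⟪a, b⟫ = 0) ∧ ∀ v, v ∈ Λ ↔ ∃ a ∈ Λ₁, ∃ b ∈ Λ₂, v = a + b

section Basics

variable {d : ℕ}

/-- The columns of a matrix as vectors of Euclidean space. -/
noncomputable def colE (B : Matrix (Fin d) (Fin d) ℝ) (j : Fin d) : EuclideanSpace ℝ (Fin d) :=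
  WithLp.toLp 2 (B.col j)

lemma colE_apply (B : Matrix (Fin d) (Fin d) ℝ) (i j : Fin d) : colE B j i = B i j := rfl

lemma colE_li (B : Matrix (Fin d) (Fin d) ℝ) (hB : B.det ≠ 0) : LinearIndependent ℝ (colE B) := by
  have h := Matrix.linearIndependent_cols_of_det_ne_zero hB
  exact h.map' (WithLp.linearEquiv 2 ℝ (Fin d → ℝ)).symm.toLinearMap
    (LinearMap.ker_eq_bot.mpr (WithLp.linearEquiv 2 ℝ (Fin d → ℝ)).symm.injective)

/-- The basis of `ℝ^d` formed by the columns of an invertible matrix. -/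
noncomputable def bas (B : Matrix (Fin d) (Fin d) ℝ) (hB : B.det ≠ 0) :
    Basis (Fin d) ℝ (EuclideanSpace ℝ (Fin d)) :=
  basisOfLinearIndependentOfCardEqFinrank' (colE B) (colE_li B hB) (by simp)

lemma bas_apply (B : Matrix (Fin d) (Fin d) ℝ) (hB : B.det ≠ 0) (j : Fin d) :
    bas B hB j = colE B j := by
  unfold bas
  rw [coe_basisOfLinearIndependentOfCardEqFinrank']

lemma coe_span (B : Matrix (Fin d) (Fin d) ℝ) (hB : B.det ≠ 0) (v : EuclideanSpace ℝ (Fin d)) :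
    v ∈ Submodule.span ℤ (Set.range (bas B hB)) ↔ v ∈ lat B := by
  rw [Submodule.mem_span_range_iff_exists_fun]
  unfold lat
  simp only [Set.mem_ofPred_eq]
  refine exists_congr fun x => ?_
  constructor
  · rintro rfl i
    simp [bas_apply, mul_comm, colE_apply]
  · intro h
    ext i
    rw [h i]
    simp [bas_apply, mul_comm, colE_apply]

lemma summable_lat (B : Matrix (Fin d) (Fin d) ℝ) (hB : B.det ≠ 0) {s : ℝ} (hs : (d : ℝ) / 2 < s) :
    Summable fun v : {v : EuclideanSpace ℝ (Fin d) // v ∈ lat B ∧ v ≠ 0} =>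
      ‖(v : EuclideanSpace ℝ (Fin d))‖ ^ (-(2 * s)) := by
  have hrank : finrank ℤ (Submodule.span ℤ (Set.range (bas B hB))) = d := by
    rw [ZLattice.rank ℝ]
    exact finrank_euclideanSpace_fin
  have h := ZLattice.summable_norm_rpow (Submodule.span ℤ (Set.range (bas B hB))) (-(2 * s))
    (by rw [hrank]; linarith)
  have h' : Summable fun v : {v : EuclideanSpace ℝ (Fin d) //
      v ∈ Submodule.span ℤ (Set.range (bas B hB))} =>
      ‖(v : EuclideanSpace ℝ (Fin d))‖ ^ (-(2 * s)) := h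
  let φ : {v : EuclideanSpace ℝ (Fin d) // v ∈ lat B ∧ v ≠ 0} →
      {v : EuclideanSpace ℝ (Fin d) // v ∈ Submodule.span ℤ (Set.range (bas B hB))} :=
    fun v => ⟨v.1, (coe_span B hB _).mpr v.2.1⟩
  have hφ : Function.Injective φ := by
    intro v w h
    have h2 : (φ v).1 = (φ w).1 := by rw [h]
    exact Subtype.ext h2
  refine (h'.comp_injective hφ).congr fun v => ?_
  rfl

/-- The sheared matrix: `B` replaced by `(1 + t e fᵀ) B`. -/
def shear (B : Matrix (Fin d) (Fin d) ℝ) (e f : EuclideanSpace ℝ (Fin d)) (t : ℝ) :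
    Matrix (Fin d) (Fin d) ℝ :=
  fun i j => B i j + t * (∑ k, f k * B k j) * e i

lemma shear_det (B : Matrix (Fin d) (Fin d) ℝ) (e f : EuclideanSpace ℝ (Fin d)) (t : ℝ)
    (hef : ⟪f, e⟫ = 0) : (shear B e f t).det = B.det := by
  have h1 : shear B e f t = (1 + Matrix.replicateCol Unit (fun i => t * e i) *
      Matrix.replicateRow Unit (fun i => f i)) * B := by
    ext i j
    rw [add_mul, one_mul, Matrix.add_apply, Matrix.mul_assoc]
    simp only [shear, Matrix.mul_apply, Matrix.replicateCol_apply, Matrix.replicateRow_apply,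
      Finset.univ_unique, Finset.sum_singleton]
    ring
  have h2 : ⟪f, e⟫ = ∑ k, f k * e k := by
    rw [EuclideanSpace.inner_eq_star_dotProduct]
    simp [dotProduct, mul_comm]
  rw [h1, Matrix.det_mul, Matrix.det_one_add_replicateCol_mul_replicateRow]
  have h3 : (fun i => f i) ⬝ᵥ (fun i => t * e i) = t * ⟪f, e⟫ := by
    rw [h2, dotProduct, Finset.mul_sum]
    exact Finset.sum_congr rfl fun i _ => by ring
  rw [h3, hef]
  ring

lemma mem_lat_shear (B : Matrix (Fin d) (Fin d) ℝ) (e f : EuclideanSpace ℝ (Fin d)) (t : ℝ)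
    (v : EuclideanSpace ℝ (Fin d)) :
    v ∈ lat (shear B e f t) ↔ ∃ u ∈ lat B, v = u + (t * ⟪f, u⟫) • e := by
  have key : ∀ (x : Fin d → ℤ) (u : EuclideanSpace ℝ (Fin d)),
      (∀ i, u i = ∑ j, B i j * (x j : ℝ)) → ∀ i,
      ∑ j, shear B e f t i j * (x j : ℝ) = (u + (t * ⟪f, u⟫) • e) i := by
    intro x u hu i
    have h2 : ⟪f, u⟫ = ∑ k, f k * u k := by
      rw [EuclideanSpace.inner_eq_star_dotProduct]
      simp [dotProduct, mul_comm]
    have h3 : ∑ k, f k * u k = ∑ j, (∑ k, f k * B k j) * (x j : ℝ) := by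
      simp_rw [hu, Finset.mul_sum, Finset.sum_mul]
      rw [Finset.sum_comm]
      exact Finset.sum_congr rfl fun j _ => Finset.sum_congr rfl fun k _ => by ring
    simp only [PiLp.add_apply, PiLp.smul_apply, smul_eq_mul]
    rw [hu i, h2, h3, Finset.mul_sum, Finset.sum_mul, ← Finset.sum_add_distrib]
    refine Finset.sum_congr rfl fun j _ => ?_
    simp only [shear]
    ring
  constructor
  · rintro ⟨x, hx⟩
    refine ⟨WithLp.toLp 2 (fun i => ∑ j, B i j * (x j : ℝ)), ⟨x, fun i => rfl⟩, ?_⟩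
    ext i
    rw [hx i]
    exact key x _ (fun i => rfl) i
  · rintro ⟨u, ⟨x, hx⟩, rfl⟩
    exact ⟨x, fun i => (key x u hx i).symm⟩

lemma rpow_conv {r s : ℝ} (hr : 0 < r) : r ^ (-(2 * s)) = (1 / r ^ 2) ^ s := by
  rw [Real.rpow_neg hr.le, Real.rpow_mul hr.le, one_div, Real.inv_rpow (by positivity)]
  norm_num

end Basics

section Main

variable {d : ℕ} (Λ₁ Λ₂ : AddSubgroup (EuclideanSpace ℝ (Fin d)))

/-- The real span of `Λ₁`. -/
abbrev WW : Submodule ℝ (EuclideanSpace ℝ (Fin d)) :=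
  Submodule.span ℝ (Λ₁ : Set (EuclideanSpace ℝ (Fin d)))

/-- `Λ₁` as a `ℤ`-submodule of its real span. -/
noncomputable def L1 : Submodule ℤ (WW Λ₁) :=
  ZLattice.comap ℝ (AddSubgroup.toIntSubmodule Λ₁) (WW Λ₁).subtype

lemma mem_L1 (x : WW Λ₁) : x ∈ L1 Λ₁ ↔ (x : EuclideanSpace ℝ (Fin d)) ∈ Λ₁ := Iff.rfl

lemma L1_discrete (B : Matrix (Fin d) (Fin d) ℝ) (hB : B.det ≠ 0)
    (hsub : ∀ v ∈ Λ₁, v ∈ lat B) : DiscreteTopology (L1 Λ₁) := by
  have h1 : DiscreteTopology (Submodule.span ℤ (Set.range (bas B hB))) := inferInstance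
  have h2 : DiscreteTopology (AddSubgroup.toIntSubmodule Λ₁) := by
    refine DiscreteTopology.of_subset h1 ?_
    intro v hv
    exact (coe_span B hB v).mpr (hsub v hv)
  exact ZLattice.comap_discreteTopology ℝ _ (WW Λ₁).subtypeL.continuous
    (WW Λ₁).injective_subtype

lemma L1_full [DiscreteTopology (L1 Λ₁)] : IsZLattice ℝ (L1 Λ₁) where
  span_top := Submodule.span_span_coe_preimage

variable {Λ₁ Λ₂}

lemma orth_span (horth : ∀ a ∈ Λ₁, ∀ b ∈ Λ₂, ⟪a, b⟫ = 0) {a b : EuclideanSpace ℝ (Fin d)}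
    (ha : a ∈ WW Λ₁) (hb : b ∈ Λ₂) : ⟪a, b⟫ = 0 := by
  induction ha using Submodule.span_induction with
  | mem x hx => exact horth x hx b hb
  | zero => exact inner_zero_left _
  | add x y _ _ hx hy => rw [inner_add_left, hx, hy, add_zero]
  | smul r x _ hx => rw [inner_smul_left, hx, mul_zero]

/-- the displacement of the fibre over `b` -/
noncomputable def yt (e f : EuclideanSpace ℝ (Fin d)) (he : e ∈ Λ₁) (t : ℝ) (b : Λ₂) : WW Λ₁ :=
  (t * ⟪f, (b : EuclideanSpace ℝ (Fin d))⟫) • ⟨e, Submodule.subset_span he⟩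

/-- the parametrisation of the sheared lattice -/
noncomputable def par (e f : EuclideanSpace ℝ (Fin d)) (he : e ∈ Λ₁) (t : ℝ) (x : Λ₂ × L1 Λ₁) :
    EuclideanSpace ℝ (Fin d) :=
  ((yt e f he t x.1 + (x.2 : WW Λ₁) : WW Λ₁) : EuclideanSpace ℝ (Fin d)) +
    (x.1 : EuclideanSpace ℝ (Fin d))

lemma par_inj (horth : ∀ a ∈ Λ₁, ∀ b ∈ Λ₂, ⟪a, b⟫ = 0) (e f : EuclideanSpace ℝ (Fin d))
    (he : e ∈ Λ₁) (t : ℝ) : Function.Injective (par (Λ₂ := Λ₂) e f he t) := by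
  intro x x' h
  unfold par at h
  set p : WW Λ₁ := yt e f he t x.1 + (x.2 : WW Λ₁) with hp
  set p' : WW Λ₁ := yt e f he t x'.1 + (x'.2 : WW Λ₁) with hp'
  have h1 : ((p - p' : WW Λ₁) : EuclideanSpace ℝ (Fin d)) =
      ((x'.1 - x.1 : Λ₂) : EuclideanSpace ℝ (Fin d)) := by
    push_cast
    have : (p : EuclideanSpace ℝ (Fin d)) = (p' : EuclideanSpace ℝ (Fin d)) + x'.1 - x.1 := by
      rw [← h]; abel
    rw [this]; abel
  have h2 : ⟪((p - p' : WW Λ₁) : EuclideanSpace ℝ (Fin d)),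
      ((x'.1 - x.1 : Λ₂) : EuclideanSpace ℝ (Fin d))⟫ = 0 :=
    orth_span horth (p - p').2 (x'.1 - x.1).2
  rw [h1, inner_self_eq_zero] at h2
  have h3 : x'.1 = x.1 := by
    rw [← sub_eq_zero]
    exact Subtype.ext h2
  have h4 : p = p' := by
    rw [h2] at h1
    rw [← sub_eq_zero]
    exact Subtype.ext h1
  rw [hp, hp', h3] at h4
  have h5 : (x.2 : WW Λ₁) = (x'.2 : WW Λ₁) := add_left_cancel h4
  exact Prod.ext h3.symm (Subtype.ext h5)

lemma par_zero (e f : EuclideanSpace ℝ (Fin d)) (he : e ∈ Λ₁) (t : ℝ) :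
    par (Λ₂ := Λ₂) e f he t (0, 0) = 0 := by
  simp [par, yt]

lemma par_norm (horth : ∀ a ∈ Λ₁, ∀ b ∈ Λ₂, ⟪a, b⟫ = 0) (e f : EuclideanSpace ℝ (Fin d))
    (he : e ∈ Λ₁) (t : ℝ) (x : Λ₂ × L1 Λ₁) :
    ‖par e f he t x‖ ^ 2 = ‖yt e f he t x.1 + (x.2 : WW Λ₁)‖ ^ 2 +
      ‖(x.1 : EuclideanSpace ℝ (Fin d))‖ ^ 2 := by
  have h := orth_span horth (yt e f he t x.1 + (x.2 : WW Λ₁)).2 x.1.2
  have := norm_add_sq_eq_norm_sq_add_norm_sq_of_inner_eq_zero _ _ h
  unfold par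
  rw [sq, this]
  simp only [sq]
  rfl

lemma par_range {B : Matrix (Fin d) (Fin d) ℝ} (horth : ∀ a ∈ Λ₁, ∀ b ∈ Λ₂, ⟪a, b⟫ = 0)
    (hdec : ∀ v, v ∈ lat B ↔ ∃ a ∈ Λ₁, ∃ b ∈ Λ₂, v = a + b) (e f : EuclideanSpace ℝ (Fin d))
    (he : e ∈ Λ₁) (hf : f ∈ Λ₂) (t : ℝ) (v : EuclideanSpace ℝ (Fin d)) :
    v ∈ lat (shear B e f t) ↔ ∃ x : Λ₂ × L1 Λ₁, par e f he t x = v := by
  rw [mem_lat_shear]
  constructor
  · rintro ⟨u, hu, rfl⟩
    obtain ⟨a, ha, b, hb, rfl⟩ := (hdec u).mp hu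
    refine ⟨(⟨b, hb⟩, ⟨⟨a, Submodule.subset_span ha⟩, ha⟩), ?_⟩
    have h1 : ⟪f, a + b⟫ = ⟪f, b⟫ := by
      rw [inner_add_right, real_inner_comm, horth a ha f hf, zero_add]
    rw [h1]
    simp only [par, yt, Submodule.coe_add, Submodule.coe_smul]
    abel
  · rintro ⟨x, rfl⟩
    refine ⟨((x.2 : WW Λ₁) : EuclideanSpace ℝ (Fin d)) + (x.1 : EuclideanSpace ℝ (Fin d)),
      (hdec _).mpr ⟨_, (mem_L1 Λ₁ _).mp x.2.2, _, x.1.2, rfl⟩, ?_⟩
    have h1 : ⟪f, ((x.2 : WW Λ₁) : EuclideanSpace ℝ (Fin d)) + (x.1 : EuclideanSpace ℝ (Fin d))⟫ =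
        ⟪f, (x.1 : EuclideanSpace ℝ (Fin d))⟫ := by
      rw [inner_add_right, real_inner_comm, horth _ ((mem_L1 Λ₁ _).mp x.2.2) f hf, zero_add]
    rw [h1]
    simp only [par, yt, Submodule.coe_add, Submodule.coe_smul]
    abel

/-- The parametrisation of the nonzero vectors of the sheared lattice. -/
noncomputable def parEquiv {B : Matrix (Fin d) (Fin d) ℝ}
    (horth : ∀ a ∈ Λ₁, ∀ b ∈ Λ₂, ⟪a, b⟫ = 0)
    (hdec : ∀ v, v ∈ lat B ↔ ∃ a ∈ Λ₁, ∃ b ∈ Λ₂, v = a + b) (e f : EuclideanSpace ℝ (Fin d))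
    (he : e ∈ Λ₁) (hf : f ∈ Λ₂) (t : ℝ) :
    {x : Λ₂ × L1 Λ₁ // x ≠ (0, 0)} ≃
      {v : EuclideanSpace ℝ (Fin d) // v ∈ lat (shear B e f t) ∧ v ≠ 0} :=
  Equiv.ofBijective (fun x => ⟨par e f he t x.1,
    (par_range horth hdec e f he hf t _).mpr ⟨x.1, rfl⟩, fun h => x.2 (by
      rw [← par_zero e f he t] at h
      exact par_inj horth e f he t h)⟩)
    ⟨fun x x' h => Subtype.ext (par_inj horth e f he t (congrArg Subtype.val h)), fun v => by
      obtain ⟨x, hx⟩ := (par_range horth hdec e f he hf t v.1).mp v.2.1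
      refine ⟨⟨x, fun h => v.2.2 ?_⟩, Subtype.ext hx⟩
      rw [← hx, h, par_zero]⟩

lemma zeta_eq {B : Matrix (Fin d) (Fin d) ℝ} (hB : B.det ≠ 0)
    (horth : ∀ a ∈ Λ₁, ∀ b ∈ Λ₂, ⟪a, b⟫ = 0)
    (hdec : ∀ v, v ∈ lat B ↔ ∃ a ∈ Λ₁, ∃ b ∈ Λ₂, v = a + b) (e f : EuclideanSpace ℝ (Fin d))
    (he : e ∈ Λ₁) (hf : f ∈ Λ₂) (t : ℝ) {s : ℝ} (hs : (d : ℝ) / 2 < s) :
    zeta (lat (shear B e f t)) s = ∑' x : {x : Λ₂ × L1 Λ₁ // x ≠ (0, 0)},
      (1 / (‖yt e f he t x.1.1 + (x.1.2 : WW Λ₁)‖ ^ 2 +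
        ‖(x.1.1 : EuclideanSpace ℝ (Fin d))‖ ^ 2)) ^ s ∧
    Summable fun x : {x : Λ₂ × L1 Λ₁ // x ≠ (0, 0)} =>
      (1 / (‖yt e f he t x.1.1 + (x.1.2 : WW Λ₁)‖ ^ 2 +
        ‖(x.1.1 : EuclideanSpace ℝ (Fin d))‖ ^ 2)) ^ s := by
  have hef : ⟪f, e⟫ = 0 := by rw [real_inner_comm]; exact horth e he f hf
  have hterm : ∀ x : {x : Λ₂ × L1 Λ₁ // x ≠ (0, 0)},
      ‖((parEquiv horth hdec e f he hf t x : {v : EuclideanSpace ℝ (Fin d) //
        v ∈ lat (shear B e f t) ∧ v ≠ 0}) : EuclideanSpace ℝ (Fin d))‖ ^ (-(2 * s)) =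
      (1 / (‖yt e f he t x.1.1 + (x.1.2 : WW Λ₁)‖ ^ 2 +
        ‖(x.1.1 : EuclideanSpace ℝ (Fin d))‖ ^ 2)) ^ s := by
    intro x
    rw [rpow_conv (norm_pos_iff.mpr (parEquiv horth hdec e f he hf t x).2.2)]
    have : ((parEquiv horth hdec e f he hf t x : {v : EuclideanSpace ℝ (Fin d) //
        v ∈ lat (shear B e f t) ∧ v ≠ 0}) : EuclideanSpace ℝ (Fin d)) = par e f he t x.1 := rfl
    rw [this, par_norm horth]
  constructor
  · unfold zeta
    rw [← (parEquiv horth hdec e f he hf t).tsum_eq]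
    exact tsum_congr hterm
  · have h := summable_lat (shear B e f t) (by rw [shear_det B e f t hef]; exact hB) hs
    have h2 := (parEquiv horth hdec e f he hf t).summable_iff.mpr h
    exact h2.congr hterm

lemma shear_zero (B : Matrix (Fin d) (Fin d) ℝ) (e f : EuclideanSpace ℝ (Fin d)) :
    shear B e f 0 = B := by
  ext i j
  simp [shear]

/-- The strict inequality along the shear. -/
lemma zeta_lt {B : Matrix (Fin d) (Fin d) ℝ} (hB : B.det ≠ 0)
    (horth : ∀ a ∈ Λ₁, ∀ b ∈ Λ₂, ⟪a, b⟫ = 0)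
    (hdec : ∀ v, v ∈ lat B ↔ ∃ a ∈ Λ₁, ∃ b ∈ Λ₂, v = a + b) (e f : EuclideanSpace ℝ (Fin d))
    (he : e ∈ Λ₁) (hf : f ∈ Λ₂) (t : ℝ) {s : ℝ} (hs : (d : ℝ) / 2 < s)
    (ht : (t * ⟪f, f⟫) • e ∉ Λ₁) :
    zeta (lat (shear B e f t)) s < zeta (lat B) s := by
  have hsub1 : ∀ v ∈ Λ₁, v ∈ lat B := fun v hv =>
    (hdec v).mpr ⟨v, hv, 0, zero_mem _, by simp⟩
  have hsub2 : ∀ v ∈ Λ₂, v ∈ lat B := fun v hv =>
    (hdec v).mpr ⟨0, zero_mem _, v, hv, by simp⟩
  have := L1_discrete Λ₁ B hB hsub1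
  have : IsZLattice ℝ (L1 Λ₁) := L1_full Λ₁
  obtain ⟨h1, h1s⟩ := zeta_eq hB horth hdec e f he hf t hs
  obtain ⟨h2, h2s⟩ := zeta_eq hB horth hdec e f he hf 0 hs
  rw [shear_zero] at h2
  have hy00 : ∀ b : Λ₂, yt e f he 0 b = 0 := by
    intro b
    simp [yt]
  simp only [hy00, zero_add] at h2 h2s
  rw [h1, h2]
  -- the injection of `Λ₂` in the lattice
  let ψ : Λ₂ → {v : EuclideanSpace ℝ (Fin d) // v ∈ Submodule.span ℤ (Set.range (bas B hB))} :=
    fun b => ⟨b.1, (coe_span B hB _).mpr (hsub2 _ b.2)⟩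
  have hψ : Function.Injective ψ := by
    intro v w h
    have h2 : (ψ v).1 = (ψ w).1 := by rw [h]
    exact Subtype.ext h2
  have hcount : Countable Λ₂ := by
    have : Countable (Submodule.span ℤ (Set.range (bas B hB))) := inferInstance
    exact hψ.countable
  have hspos : 0 < s := by
    have : (0 : ℝ) ≤ d := Nat.cast_nonneg d
    linarith
  refine core_zeta (L1 Λ₁) (yt e f he t) (fun b : Λ₂ => ‖(b : EuclideanSpace ℝ (Fin d))‖ ^ 2) 0
    ?_ ?_ ?_ ?_ ?_ hspos h1s h2s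
  · simp [yt]
  · simp
  · intro b hb
    have : (b : EuclideanSpace ℝ (Fin d)) ≠ 0 := fun h => hb (Subtype.ext h)
    have := norm_pos_iff.mpr this
    positivity
  · intro t ht
    have hsum := Pool.Agent.Lib.Pd7404b.summable_pow_mul_exp
      (Submodule.span ℤ (Set.range (bas B hB))) 0 ht
    have hsum' : Summable fun v : {v : EuclideanSpace ℝ (Fin d) //
        v ∈ Submodule.span ℤ (Set.range (bas B hB))} =>
        ‖(v : EuclideanSpace ℝ (Fin d))‖ ^ 0 *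
          Real.exp (-t * ‖(v : EuclideanSpace ℝ (Fin d))‖ ^ 2) := hsum
    refine (hsum'.comp_injective hψ).congr fun b => ?_
    simp only [Function.comp_apply, pow_zero, one_mul, ψ]
    congr 1
    ring
  · refine ⟨⟨f, hf⟩, fun h => ht ?_⟩
    have := (mem_L1 Λ₁ _).mp h
    simpa [yt] using this

end Main

/-- Main lemma: near every basis of a decomposable lattice of determinant one there is a lattice
of determinant one with a strictly smaller zeta value. -/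
theorem exists_smaller {d : ℕ} {s : ℝ} (hs : (d : ℝ) / 2 < s)
    (B : Matrix (Fin d) (Fin d) ℝ) (hB : |B.det| = 1) (hdec : IsDecomposable (lat B))
    {ε : ℝ} (hε : 0 < ε) :
    ∃ B' : Matrix (Fin d) (Fin d) ℝ, |B'.det| = 1 ∧ (∀ i j, |B' i j - B i j| < ε) ∧
      zeta (lat B') s < zeta (lat B) s := by
  obtain ⟨Λ₁, Λ₂, hne1, hne2, horth, hmem⟩ := hdec
  have hB0 : B.det ≠ 0 := by
    intro h
    rw [h] at hB
    simp at hB
  obtain ⟨e, he, he0⟩ : ∃ e ∈ Λ₁, e ≠ 0 := by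
    by_contra hcon
    push Not at hcon
    exact hne1 ((AddSubgroup.eq_bot_iff_forall Λ₁).mpr hcon)
  obtain ⟨f, hf, hf0⟩ : ∃ f ∈ Λ₂, f ≠ 0 := by
    by_contra hcon
    push Not at hcon
    exact hne2 ((AddSubgroup.eq_bot_iff_forall Λ₂).mpr hcon)
  have hff : ⟪f, f⟫ ≠ 0 := by
    intro h
    exact hf0 (inner_self_eq_zero.mp h)
  have hef : ⟪f, e⟫ = 0 := by rw [real_inner_comm]; exact horth e he f hf
  set M : ℝ := 1 + ∑ i, ∑ j, |(∑ k, f k * B k j) * e i| with hM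
  have hMpos : 0 < M := by positivity
  have hcount : Countable Λ₁ := by
    have : Countable (Submodule.span ℤ (Set.range (bas B hB0))) := inferInstance
    let ψ : Λ₁ → {v : EuclideanSpace ℝ (Fin d) // v ∈ Submodule.span ℤ (Set.range (bas B hB0))} :=
      fun b => ⟨b.1, (coe_span B hB0 _).mpr ((hmem _).mpr ⟨b.1, b.2, 0, zero_mem _, by simp⟩)⟩
    have hψ : Function.Injective ψ := by
      intro v w h
      have h2 : (ψ v).1 = (ψ w).1 := by rw [h]
      exact Subtype.ext h2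
    exact hψ.countable
  obtain ⟨t, ht, htn⟩ : ∃ t ∈ Set.Ioo 0 (ε / M), (t * ⟪f, f⟫) • e ∉ Λ₁ := by
    by_contra hcon
    push Not at hcon
    let χ : Set.Ioo 0 (ε / M) → Λ₁ := fun t => ⟨(t.1 * ⟪f, f⟫) • e, hcon t.1 t.2⟩
    have hχ : Function.Injective χ := by
      intro a b h
      have h2 : (a.1 * ⟪f, f⟫) • e = (b.1 * ⟪f, f⟫) • e := congrArg Subtype.val h
      have h3 := smul_left_injective ℝ he0 h2
      exact Subtype.ext (mul_right_cancel₀ hff h3)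
    have h1 : Countable (Set.Ioo 0 (ε / M)) := hχ.countable
    have h2 : (Set.Ioo 0 (ε / M)).Countable := h1
    rw [Cardinal.Real.Ioo_countable_iff] at h2
    exact absurd h2 (not_le.mpr (by positivity))
  refine ⟨shear B e f t, by rw [shear_det B e f t hef]; exact hB, fun i j => ?_,
    zeta_lt hB0 horth hmem e f he hf t hs htn⟩
  have h1 : shear B e f t i j - B i j = t * ((∑ k, f k * B k j) * e i) := by
    simp only [shear]; ring
  rw [h1, abs_mul, abs_of_pos ht.1]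
  have h2 : |(∑ k, f k * B k j) * e i| ≤ M := by
    have h3 : |(∑ k, f k * B k j) * e i| ≤ ∑ j, |(∑ k, f k * B k j) * e i| :=
      Finset.single_le_sum (f := fun j => |(∑ k, f k * B k j) * e i|)
        (fun _ _ => abs_nonneg _) (Finset.mem_univ j)
    have h4 : ∑ j, |(∑ k, f k * B k j) * e i| ≤ ∑ i, ∑ j, |(∑ k, f k * B k j) * e i| :=
      Finset.single_le_sum (f := fun i => ∑ j, |(∑ k, f k * B k j) * e i|)
        (fun _ _ => Finset.sum_nonneg fun _ _ => abs_nonneg _) (Finset.mem_univ i)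
    linarith
  calc t * |(∑ k, f k * B k j) * e i| ≤ t * M := mul_le_mul_of_nonneg_left h2 ht.1.le
    _ < ε / M * M := mul_lt_mul_of_pos_right ht.2 hMpos
    _ = ε := by field_simp

/-- **Partial answer to Q1.** For every `d` and every `s > d/2`, no decomposable lattice of
determinant `1` is a local (hence a global) minimum of `ζ(·, s)`. -/
theorem result (d : ℕ) (s : ℝ) (hs : (d : ℝ) / 2 < s) (Λ : Set (EuclideanSpace ℝ (Fin d)))
    (hΛ : IsDecomposable Λ) : ¬ IsLocalMinimum Λ s ∧ ¬ IsGlobalMinimum Λ s := by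
  constructor
  · rintro ⟨B, hB, rfl, ε, hε, h⟩
    obtain ⟨B', hB', hclose, hlt⟩ := exists_smaller hs B hB hΛ hε
    exact absurd hlt (not_lt.mpr (h B' hB' hclose))
  · rintro ⟨⟨B, hB, rfl⟩, h⟩
    obtain ⟨B', hB', -, hlt⟩ := exists_smaller hs B hB hΛ one_pos
    exact absurd hlt (not_lt.mpr (h _ ⟨B', hB', rfl⟩))

end Pool.Agent.Results.MP_34eea4_nt.IndecomposableMinima
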