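import Pool.Agent.Lib.EpZ.IsoInv

/-!
# The global minima of the Epstein zeta function for large `s`

Let `m` be the greatest length of a shortest nonzero vector of a lattice of determinant one, and
`H` the least, over the densest lattices of determinant one, of the greatest entropy of a system of
eutaxy coefficients. Then `m^(2s) min ζ(·, s) → exp H` as `s → ∞`, and every global minimum for
`s ≥ s₀` is at distance `O(1/s)` from a densest lattice whose greatest entropy is `H`.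
-/

open Matrix Filter Topology

namespace Pool.Agent.Results.MP_34eea4_nt.LargeGlobalMinima

open Pool.Agent.Lib.EpZ

/-- The global minima of `ζ(·, s)` for all large `s`. -/
theorem result (d : ℕ) (hd : 1 ≤ d) :
    ∃ m H C s₀ : ℝ, (d : ℝ) / 2 < s₀ ∧
      IsGreatest {r | ∃ Λ : Set (EuclideanSpace ℝ (Fin d)), IsUnitLattice Λ ∧ r = minLen Λ} m ∧
      IsLeast {h | ∃ Λ : Set (EuclideanSpace ℝ (Fin d)), IsUnitLattice Λ ∧ minLen Λ = m ∧
        IsGreatest (EutaxyEntropies Λ) h} H ∧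
      Tendsto (fun s : ℝ => m ^ (2 * s) *
        sInf {z | ∃ Λ : Set (EuclideanSpace ℝ (Fin d)), IsUnitLattice Λ ∧ z = zeta Λ s}) atTop
        (𝓝 (Real.exp H)) ∧
      (∀ s, s₀ ≤ s → (∃ Λ : Set (EuclideanSpace ℝ (Fin d)), IsGlobalMinimum Λ s) ∧
        ∀ Λ : Set (EuclideanSpace ℝ (Fin d)), IsGlobalMinimum Λ s →
          ∃ B B' : Matrix (Fin d) (Fin d) ℝ, Λ = lat B ∧ |B.det| = 1 ∧ |B'.det| = 1 ∧
            (∀ j k, |B j k - B' j k| ≤ C / s) ∧ minLen (lat B') = m ∧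
            IsGreatest (EutaxyEntropies (lat B')) H) := by
  obtain ⟨N, B, B', h, C, s₀, h1, h2, h3, h4, -, -, -, h8, h9⟩ := main d hd
  have hd' : d ≠ 0 := by omega
  -- the best index
  obtain ⟨⟨Λ₀, hΛ₀⟩, hbest₀⟩ := h9 s₀ le_rfl
  obtain ⟨i₀, -, hi₀, hi₀'⟩ := hbest₀ Λ₀ hΛ₀
  set m : ℝ := minLen (lat (B i₀)) with hm
  set H : ℝ := h i₀ with hH
  have hunit : ∀ i, IsUnitLattice (lat (B i)) := fun i => ⟨B i, (h2 i).1, rfl⟩
  have hbest : ∀ i, (∀ Λ' : Set (EuclideanSpace ℝ (Fin d)), IsUnitLattice Λ' →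
      minLen Λ' ≤ minLen (lat (B i))) → (∀ j, minLen (lat (B j)) = minLen (lat (B i)) →
      h i ≤ h j) → minLen (lat (B i)) = m ∧ h i = H := by
    intro i k1 k2
    have e1 : minLen (lat (B i)) = m := le_antisymm (hi₀ _ (hunit i)) (k1 _ (hunit i₀))
    exact ⟨e1, le_antisymm (k2 i₀ (by rw [e1])) (hi₀' i e1)⟩
  refine ⟨m, H, d * |C|, s₀, h1, ⟨⟨lat (B i₀), hunit i₀, rfl⟩, ?_⟩,
    ⟨⟨lat (B i₀), hunit i₀, rfl, (h8 i₀).1⟩, ?_⟩, ?_, ?_⟩
  · rintro r ⟨Λ, hΛ, rfl⟩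
    exact hi₀ Λ hΛ
  · rintro e ⟨Λ, hΛ, hΛm, hΛe⟩
    obtain ⟨D, hD, rfl⟩ := hΛ
    have hdens : IsLocallyDensest (lat D) := ⟨D, hD, rfl, 1, one_pos, fun D' hD' _ => by
      rw [hΛm]
      exact hi₀ _ ⟨D', hD', rfl⟩⟩
    obtain ⟨j, hj, -⟩ := h3 _ hdens
    have e1 : minLen (lat (B j)) = m := by rw [hj.minLen_eq, hΛm]
    have e2 := (h8 j).1
    rw [← hj.entropies_eq] at e2
    rw [hΛe.unique e2]
    exact hi₀' j e1
  · -- the value
    have hval : ∀ s, s₀ ≤ s → ∃ i, minLen (lat (B i)) = m ∧ h i = H ∧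
        sInf {z | ∃ Λ : Set (EuclideanSpace ℝ (Fin d)), IsUnitLattice Λ ∧ z = zeta Λ s} =
          zeta (lat (B' i s)) s := by
      intro s hs
      obtain ⟨⟨Λ, hΛ⟩, hb⟩ := h9 s hs
      obtain ⟨i, k1, k2, k3⟩ := hb Λ hΛ
      obtain ⟨e1, e2⟩ := hbest i k2 k3
      refine ⟨i, e1, e2, ?_⟩
      rw [k1.zeta_eq s]
      refine IsLeast.csInf_eq ⟨⟨Λ, hΛ.1, rfl⟩, ?_⟩
      rintro z ⟨Λ', hΛ', rfl⟩
      exact hΛ.2 Λ' hΛ'
    rw [Metric.tendsto_nhds]
    intro ε hε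
    have hall : ∀ᶠ s in atTop, ∀ i, dist (minLen (lat (B i)) ^ (2 * s) *
        zeta (lat (B' i s)) s) (Real.exp (h i)) < ε :=
      Filter.eventually_all.mpr fun i => Metric.tendsto_nhds.mp (h8 i).2 ε hε
    filter_upwards [hall, eventually_ge_atTop s₀] with s k1 k2
    obtain ⟨i, e1, e2, e3⟩ := hval s k2
    have := k1 i
    rw [e1, e2, ← e3] at this
    exact this
  · -- the location
    intro s hs
    refine ⟨(h9 s hs).1, fun Λ hΛ => ?_⟩
    obtain ⟨i, k1, k2, k3⟩ := (h9 s hs).2 Λ hΛ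
    obtain ⟨e1, e2⟩ := hbest i k2 k3
    obtain ⟨φ, hφ⟩ := k1.symm
    obtain ⟨O, hO1, hO2, hO3⟩ := exists_orth φ
    have hiso : Isometric (lat (B i)) (lat (O * B i)) := ⟨φ, (hO3 (B i)).symm⟩
    have hdetO : ∀ D : Matrix (Fin d) (Fin d) ℝ, |D.det| = 1 → |(O * D).det| = 1 := by
      intro D hD
      rw [Matrix.det_mul, abs_mul, hO1, hD, one_mul]
    have hs0 : 0 < s := by
      have : (0 : ℝ) ≤ d := Nat.cast_nonneg d
      linarith
    refine ⟨O * B' i s, O * B i, ?_, hdetO _ (h4 s hs i).1, hdetO _ (h2 i).1, ?_, ?_, ?_⟩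
    · rw [hO3, hφ]
    · intro j k
      have e3 : (O * B' i s) j k - (O * B i) j k = ∑ l, O j l * (B' i s l k - B i l k) := by
        rw [Matrix.mul_apply, Matrix.mul_apply, ← Finset.sum_sub_distrib]
        exact Finset.sum_congr rfl fun l _ => by ring
      rw [e3]
      refine (Finset.abs_sum_le_sum_abs _ _).trans ?_
      calc ∑ l, |O j l * (B' i s l k - B i l k)| ≤ ∑ _l : Fin d, |C| / s := by
            refine Finset.sum_le_sum fun l _ => ?_
            rw [abs_mul]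
            have e4 := (h4 s hs i).2.2 l k
            have e5 : C / s ≤ |C| / s := div_le_div_of_nonneg_right (le_abs_self _) hs0.le
            calc |O j l| * |B' i s l k - B i l k| ≤ 1 * (|C| / s) :=
                  mul_le_mul (hO2 j l) (e4.trans e5) (abs_nonneg _) zero_le_one
              _ = |C| / s := one_mul _
        _ = d * |C| / s := by simp; ring
    · rw [hiso.minLen_eq, e1]
    · rw [← hiso.entropies_eq, ← e2]
      exact (h8 i).1

end Pool.Agent.Results.MP_34eea4_nt.LargeGlobalMinima
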