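import Pool.Agent.Lib.EpZ.Main

/-!
# The local minima of the Epstein zeta function for all large `s`

For every dimension `d` there is `s₀` such that for all `s ≥ s₀` the local minima of `ζ(·, s)` on
the lattices of determinant one are, up to isometry, in one-to-one correspondence with the lattices
of locally maximal packing density: near every such lattice `L i` there is exactly one local minimum
`L i (s)`, at distance `O(1/s)`, and there are no others. It is constant in `s` exactly when all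
layers of `L i` are strongly eutactic, and `(min L i)^(2s) ζ(L i (s), s) → exp (h i)`, with `h i`
the largest entropy of a system of eutaxy coefficients of `L i`.
-/

open Matrix Filter Topology

namespace Pool.Agent.Results.MP_34eea4_nt.LargeLocalMinima

open Pool.Agent.Lib.EpZ

/-- The local minima of `ζ(·, s)` for all large `s`. -/
theorem result (d : ℕ) (hd : 1 ≤ d) :
    ∃ (N : ℕ) (B : Fin N → Matrix (Fin d) (Fin d) ℝ)
      (B' : Fin N → ℝ → Matrix (Fin d) (Fin d) ℝ) (h : Fin N → ℝ) (C s₀ : ℝ),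
      (d : ℝ) / 2 < s₀ ∧
      (∀ i, |(B i).det| = 1 ∧ IsLocallyDensest (lat (B i))) ∧
      (∀ Λ : Set (EuclideanSpace ℝ (Fin d)), IsLocallyDensest Λ →
        ∃! i, Isometric Λ (lat (B i))) ∧
      (∀ s, s₀ ≤ s → ∀ i, |(B' i s).det| = 1 ∧ IsLocalMinimum (lat (B' i s)) s ∧
        ∀ j k, |B' i s j k - B i j k| ≤ C / s) ∧
      (∀ s, s₀ ≤ s → ∀ Λ : Set (EuclideanSpace ℝ (Fin d)), IsLocalMinimum Λ s →
        ∃! i, Isometric Λ (lat (B' i s))) ∧
      (∀ i, (∃ s₁, ∀ s, s₁ ≤ s → Isometric (lat (B i)) (lat (B' i s))) ↔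
        StronglyEutacticLayers (lat (B i))) ∧
      (∀ Λ : Set (EuclideanSpace ℝ (Fin d)), (∃ s₁, ∀ s, s₁ ≤ s → IsLocalMinimum Λ s) ↔
        IsLocallyDensest Λ ∧ StronglyEutacticLayers Λ) ∧
      (∀ i, IsGreatest (EutaxyEntropies (lat (B i))) (h i) ∧
        Tendsto (fun s => minLen (lat (B i)) ^ (2 * s) * zeta (lat (B' i s)) s) atTop
          (𝓝 (Real.exp (h i)))) := by
  obtain ⟨N, B, B', h, C, s₀, h1, h2, h3, h4, h5, h6, h7, h8, -⟩ := main d hd
  exact ⟨N, B, B', h, C, s₀, h1, h2, h3, h4, h5, h6, h7, h8⟩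

end Pool.Agent.Results.MP_34eea4_nt.LargeLocalMinima
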